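import Mathlib

/-!
# Norm inequalities over the Galois group of a number field
-/

set_option autoImplicit false

namespace Pool.Agent.W628.AbSalem

open Polynomial Module

variable {K : Type} [Field K] [NumberField K] [IsGalois ℚ K]

lemma one_le_prod (ι : K →ₐ[ℚ] ℂ) {γ : K} (hγ : IsIntegral ℤ γ) (h0 : γ ≠ 0) :
    1 ≤ ∏ s : K ≃ₐ[ℚ] K, ‖ι (s γ)‖ := by
  have h1 := Algebra.norm_eq_prod_automorphisms ℚ γ
  have h2 : IsIntegral ℤ (Algebra.norm ℚ γ) := Algebra.isIntegral_norm ℚ hγ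
  obtain ⟨n, hn⟩ := IsIntegrallyClosed.isIntegral_iff.mp h2
  have h3 : Algebra.norm ℚ γ ≠ 0 := Algebra.norm_ne_zero_iff.mpr h0
  have h4 : n ≠ 0 := by
    rintro rfl
    exact h3 (by rw [← hn]; simp)
  have h5 : ∏ s : K ≃ₐ[ℚ] K, ι (s γ) = (n : ℂ) := by
    rw [← map_prod, ← h1, ← hn]
    simp
  have h6 : ∏ s : K ≃ₐ[ℚ] K, ‖ι (s γ)‖ = |(n : ℝ)| := by
    rw [← norm_prod, h5, Complex.norm_intCast]
  rw [h6]
  exact_mod_cast Int.one_le_abs h4

lemma five_pow_le (ι : K →ₐ[ℚ] ℂ) {γ δ : K} (h : γ = 5 * δ) (hδ : IsIntegral ℤ δ)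
    (h0 : γ ≠ 0) :
    (5 : ℝ) ^ (Fintype.card (K ≃ₐ[ℚ] K)) ≤ ∏ s : K ≃ₐ[ℚ] K, ‖ι (s γ)‖ := by
  have hδ0 : δ ≠ 0 := by
    rintro rfl
    exact h0 (by rw [h, mul_zero])
  have h1 := one_le_prod ι hδ hδ0
  have h2 : ∏ s : K ≃ₐ[ℚ] K, ‖ι (s γ)‖ =
      (5 : ℝ) ^ (Fintype.card (K ≃ₐ[ℚ] K)) * ∏ s : K ≃ₐ[ℚ] K, ‖ι (s δ)‖ := by
    rw [← Finset.card_univ, ← Finset.prod_const, ← Finset.prod_mul_distrib]
    refine Finset.prod_congr rfl fun s _ => ?_
    have h5 : ‖ι (s 5)‖ = 5 := by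
      rw [map_ofNat s 5, map_ofNat ι 5]
      norm_num
    rw [h, map_mul, map_mul, norm_mul, h5]
  rw [h2]
  exact le_mul_of_one_le_right (by positivity) h1

open Classical in
lemma stab_card (t : K) :
    (Finset.univ.filter (fun s : K ≃ₐ[ℚ] K => s t = t)).card * (minpoly ℚ t).natDegree =
      Fintype.card (K ≃ₐ[ℚ] K) := by
  have hint : IsIntegral ℚ t := Algebra.IsIntegral.isIntegral t
  have h1 : Nat.card (IntermediateField.fixingSubgroup (IntermediateField.adjoin ℚ {t})) =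
      finrank (IntermediateField.adjoin ℚ {t}) K :=
    IsGalois.card_fixingSubgroup_eq_finrank _
  have h2 : (Finset.univ.filter (fun s : K ≃ₐ[ℚ] K => s t = t)).card =
      Nat.card (IntermediateField.fixingSubgroup (IntermediateField.adjoin ℚ {t})) := by
    rw [← Fintype.card_subtype, ← Nat.card_eq_fintype_card]
    refine Nat.card_congr (Equiv.subtypeEquivRight fun s => ?_)
    rw [IntermediateField.mem_fixingSubgroup_iff]
    constructor
    · intro hs x hx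
      induction hx using IntermediateField.adjoin_induction with
      | mem x hx =>
        rw [Set.mem_singleton_iff] at hx
        rw [hx, hs]
      | algebraMap x => exact s.commutes x
      | add x y _ _ hx hy => rw [map_add, hx, hy]
      | inv x _ hx => rw [map_inv₀, hx]
      | mul x y _ _ hx hy => rw [map_mul, hx, hy]
    · intro hs
      exact hs t (IntermediateField.mem_adjoin_simple_self ℚ t)
  have h3 : finrank ℚ (IntermediateField.adjoin ℚ {t}) = (minpoly ℚ t).natDegree :=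
    IntermediateField.adjoin.finrank hint
  have h4 : Fintype.card (K ≃ₐ[ℚ] K) = finrank ℚ K := by
    rw [← Nat.card_eq_fintype_card]
    exact IsGalois.card_aut_eq_finrank ℚ K
  rw [h2, h1, ← h3, h4, mul_comm]
  exact finrank_mul_finrank ℚ _ K

open Classical in
/-- The main counting inequality. -/
lemma main_ineq (ι : K →ₐ[ℚ] ℂ) {γ δ : K} (h : γ = 5 * δ) (hδ : IsIntegral ℤ δ)
    (h0 : γ ≠ 0) (t : K) (σ : K ≃ₐ[ℚ] K) {W : ℝ} (hW : 1 ≤ W)
    (hb : ∀ s : K ≃ₐ[ℚ] K, ‖ι (s γ)‖ ≤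
      4 * ((if s t = t then W else 1) * (if s (σ t) = t then W else 1))) :
    (5 : ℝ) ^ (minpoly ℚ t).natDegree ≤ 4 ^ (minpoly ℚ t).natDegree * W ^ 2 := by
  set m := (Finset.univ.filter (fun s : K ≃ₐ[ℚ] K => s t = t)).card with hm
  set k := (minpoly ℚ t).natDegree with hk
  have hcard : m * k = Fintype.card (K ≃ₐ[ℚ] K) := stab_card t
  have hm0 : m ≠ 0 := by
    intro h
    rw [h, zero_mul] at hcard
    exact Fintype.card_ne_zero hcard.symm
  have h1 := five_pow_le ι h hδ h0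
  have h2 : ∏ s : K ≃ₐ[ℚ] K, ‖ι (s γ)‖ ≤ ∏ s : K ≃ₐ[ℚ] K,
      (4 * ((if s t = t then W else 1) * (if s (σ t) = t then W else 1))) :=
    Finset.prod_le_prod (fun s _ => norm_nonneg _) (fun s _ => hb s)
  have h3 : ∏ s : K ≃ₐ[ℚ] K, (if s t = t then W else 1) = W ^ m := by
    rw [Finset.prod_ite, Finset.prod_const, Finset.prod_const_one, mul_one]
  have h4 : ∏ s : K ≃ₐ[ℚ] K, (if s (σ t) = t then W else 1) = W ^ m := by
    rw [← h3]
    refine Fintype.prod_equiv (Equiv.mulRight σ) _ _ (fun s => ?_)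
    simp only [Equiv.coe_mulRight, AlgEquiv.mul_apply]
    congr
  have h5 : ∏ s : K ≃ₐ[ℚ] K,
      (4 * ((if s t = t then W else 1) * (if s (σ t) = t then W else 1))) =
      (4 ^ k * W ^ 2) ^ m := by
    rw [Finset.prod_mul_distrib, Finset.prod_mul_distrib, h3, h4, Finset.prod_const,
      Finset.card_univ, ← hcard]
    ring
  rw [h5] at h2
  rw [← hcard, mul_comm m k, pow_mul] at h1
  exact le_of_pow_le_pow_left₀ hm0 (by positivity) (h1.trans h2)

end Pool.Agent.W628.AbSalem
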