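import Mathlib
import Pool.Agent.H196R3.ParryB
import Pool.Agent.W628.AbSalem.Norm

/-!
# Conjugates of `β + 1/β`
-/

set_option autoImplicit false

namespace Pool.Agent.W628.AbSalem

open Polynomial Module
open Pool.Agent.H196R3.Parry

lemma mem_A {β : ℝ} (hint : IsIntegral ℤ β) {z : ℂ} (hz : aeval z (minpoly ℤ β) = 0) :
    z ∈ algebraicClosure ℚ ℂ := by
  rw [mem_algebraicClosure_iff]
  refine ⟨(minpoly ℤ β).map (algebraMap ℤ ℚ), ?_, ?_⟩
  · exact ((minpoly.monic hint).map _).ne_zero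
  · rw [aeval_map_algebraMap, hz]

lemma conj_lift {β : ℝ} (hβ : 1 < β) (hint : IsIntegral ℤ β) {y : ℂ}
    (hy : minpoly ℚ y = minpoly ℚ ((β + β⁻¹ : ℝ) : ℂ)) :
    ∃ z : ℂ, aeval z (minpoly ℤ β) = 0 ∧ z + z⁻¹ = y := by
  set b : algebraicClosure ℚ ℂ := ⟨(β : ℂ), mem_A hint aeval_self⟩ with hb
  set t : algebraicClosure ℚ ℂ := b + b⁻¹ with ht
  have htc : (t : ℂ) = ((β + β⁻¹ : ℝ) : ℂ) := by
    rw [ht]
    push_cast
    rfl
  have hinj : Function.Injective (algebraMap (algebraicClosure ℚ ℂ) ℂ) :=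
    (algebraMap (algebraicClosure ℚ ℂ) ℂ).injective
  have hmt : minpoly ℚ t = minpoly ℚ y := by
    rw [hy, ← htc]
    exact (minpoly.algebraMap_eq hinj t).symm
  have hac : IsAlgClosure ℚ (algebraicClosure ℚ ℂ) := algebraicClosure.isAlgClosure ℚ ℂ
  have halg : Algebra.IsAlgebraic ℚ (algebraicClosure ℚ ℂ) := hac.isAlgebraic
  have htint : IsIntegral ℚ t := (halg.isAlgebraic t).isIntegral
  have hy0 : minpoly ℚ y ≠ 0 := by
    rw [← hmt]
    exact minpoly.ne_zero htint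
  have hyA : y ∈ algebraicClosure ℚ ℂ := by
    rw [mem_algebraicClosure_iff]
    exact ⟨minpoly ℚ y, hy0, minpoly.aeval ℚ y⟩
  set y' : algebraicClosure ℚ ℂ := ⟨y, hyA⟩ with hy'
  have hconj : IsConjRoot ℚ y' t := by
    unfold IsConjRoot
    rw [hmt]
    exact (minpoly.algebraMap_eq hinj y').symm
  have hnor : Normal ℚ (algebraicClosure ℚ ℂ) := IsAlgClosure.normal ℚ _
  obtain ⟨σ, hσ⟩ := hconj.exists_algEquiv
  refine ⟨((σ b : algebraicClosure ℚ ℂ) : ℂ), ?_, ?_⟩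
  · have h4 : aeval b (minpoly ℤ β) = 0 := by
      apply hinj
      rw [map_zero, ← aeval_algebraMap_apply]
      exact aeval_self
    have h5 : aeval (σ b) (minpoly ℤ β) = 0 := by
      have h6 : aeval (σ b) (minpoly ℤ β) = σ (aeval b (minpoly ℤ β)) := by
        exact (aeval_algHom_apply (σ.toAlgHom.restrictScalars ℤ) b (minpoly ℤ β))
      rw [h6, h4, map_zero]
    have h7 : aeval (algebraMap (algebraicClosure ℚ ℂ) ℂ (σ b)) (minpoly ℤ β) = 0 := by
      rw [aeval_algebraMap_apply, h5, map_zero]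
    exact h7
  · have h8 : σ b + (σ b)⁻¹ = y' := by
      rw [← map_inv₀, ← map_add, ← ht, hσ]
    have h9 := congrArg (fun x : algebraicClosure ℚ ℂ => (x : ℂ)) h8
    push_cast at h9
    exact h9

lemma rev_iff {x : ℂ} (hx : x ≠ 0) (f : ℤ[X]) : aeval x⁻¹ f.reverse = 0 ↔ aeval x f = 0 := by
  letI := invertibleOfNonzero hx
  have h := eval₂_reverse_eq_zero_iff (algebraMap ℤ ℂ) x f
  rw [invOf_eq_inv] at h
  exact h

lemma recip {β : ℝ} (hβ : 1 < β) (hint : IsIntegral ℤ β) (h : aeval ((β : ℂ)⁻¹) (minpoly ℤ β) = 0)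
    {z : ℂ} (hz : aeval z (minpoly ℤ β) = 0) : aeval z⁻¹ (minpoly ℤ β) = 0 := by
  have hβ0 : (β : ℂ) ≠ 0 := by exact_mod_cast (by linarith : β ≠ 0)
  have h1 : aeval (β : ℂ) (minpoly ℤ β).reverse = 0 := by
    have := (rev_iff (inv_ne_zero hβ0) (minpoly ℤ β)).mpr h
    rwa [inv_inv] at this
  have h2 : aeval β (minpoly ℤ β).reverse = 0 := by
    have h3 : aeval (algebraMap ℝ ℂ β) (minpoly ℤ β).reverse =
        algebraMap ℝ ℂ (aeval β (minpoly ℤ β).reverse) := aeval_algebraMap_apply ℂ β _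
    have h4 : algebraMap ℝ ℂ (aeval β (minpoly ℤ β).reverse) = 0 := by
      rw [← h3]
      exact h1
    exact (map_eq_zero_iff _ (algebraMap ℝ ℂ).injective).mp h4
  obtain ⟨r, hr⟩ := minpoly.isIntegrallyClosed_dvd hint h2
  have h5 : aeval z (minpoly ℤ β).reverse = 0 := by
    rw [hr, map_mul, hz, zero_mul]
  have h6 := rev_iff (inv_ne_zero (conj_ne_zero hβ hint hz)) (minpoly ℤ β)
  rw [inv_inv] at h6
  exact h6.mp h5

/-- If `β + 1/β` lies in a subfield not containing `β`, then `1/β` is a conjugate of `β`. -/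
lemma inv_root {β : ℝ} (hβ : 1 < β) (F : IntermediateField ℚ ℂ)
    (hF : ((β + β⁻¹ : ℝ) : ℂ) ∈ F) (hn : (β : ℂ) ∉ F) :
    aeval ((β : ℂ)⁻¹) (minpoly ℤ β) = 0 := by
  have hβ0 : (β : ℂ) ≠ 0 := by exact_mod_cast (by linarith : β ≠ 0)
  set τ : F := ⟨_, hF⟩ with hτ
  set q : F[X] := X ^ 2 - C τ * X + 1 with hq
  have hdeg : q.natDegree = 2 := by rw [hq]; compute_degree!
  have hmon : q.Monic := by rw [hq]; monicity!
  have hev : ∀ z : ℂ, aeval z q = z ^ 2 - ((β + β⁻¹ : ℝ) : ℂ) * z + 1 := by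
    intro z
    rw [hq]
    simp [hτ]
  have hroot : aeval (β : ℂ) q = 0 := by
    rw [hev]
    push_cast
    field_simp
    ring
  have hroot' : aeval ((β : ℂ)⁻¹) q = 0 := by
    rw [hev]
    push_cast
    field_simp
    ring
  have hint : IsIntegral F (β : ℂ) := ⟨q, hmon, hroot⟩
  have hdvd : minpoly F (β : ℂ) ∣ q := minpoly.dvd F _ hroot
  have hle : (minpoly F (β : ℂ)).natDegree ≤ 2 := by
    rw [← hdeg]
    exact natDegree_le_of_dvd hdvd hmon.ne_zero
  have hpos : 0 < (minpoly F (β : ℂ)).natDegree := minpoly.natDegree_pos hint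
  have hne1 : (minpoly F (β : ℂ)).natDegree ≠ 1 := by
    intro h1
    rw [minpoly.natDegree_eq_one_iff] at h1
    obtain ⟨x, hx⟩ := h1
    apply hn
    rw [← hx]
    exact x.2
  have h2 : (minpoly F (β : ℂ)).natDegree = 2 := by omega
  have heq : minpoly F (β : ℂ) = q :=
    (eq_of_monic_of_dvd_of_natDegree_le (minpoly.monic hint) hmon hdvd (by omega)).symm ▸ rfl
  have hP : aeval (β : ℂ) ((minpoly ℤ β).map (algebraMap ℤ F)) = 0 := by
    rw [aeval_map_algebraMap]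
    exact aeval_self
  obtain ⟨r, hr⟩ := minpoly.dvd F _ hP
  have h3 : aeval ((β : ℂ)⁻¹) ((minpoly ℤ β).map (algebraMap ℤ F)) = 0 := by
    rw [hr, heq, map_mul, hroot', zero_mul]
  rwa [aeval_map_algebraMap] at h3

end Pool.Agent.W628.AbSalem
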