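import Mathlib
import Pool.Agent.W628.AbSalem.Norm

/-!
# Congruences modulo five in cyclotomic fields
-/

set_option autoImplicit false

namespace Pool.Agent.W628.AbSalem

open Polynomial Module

lemma pow_five_expand (f : ℤ[X]) : ∃ g : ℤ[X], f ^ 5 = expand ℤ 5 f + C 5 * g := by
  have hdvd : C (5 : ℤ) ∣ f ^ 5 - expand ℤ 5 f := by
    rw [C_dvd_iff_dvd_coeff]
    intro i
    have : Fact (Nat.Prime 5) := ⟨by norm_num⟩
    have h1 : (f ^ 5 - expand ℤ 5 f).map (Int.castRingHom (ZMod 5)) = 0 := by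
      rw [Polynomial.map_sub, Polynomial.map_pow, map_expand, ZMod.expand_card, sub_self]
    have h2 := congrArg (fun q => coeff q i) h1
    simp only [coeff_map, coeff_zero] at h2
    exact (ZMod.intCast_zmod_eq_zero_iff_dvd _ 5).mp h2
  obtain ⟨g, hg⟩ := hdvd
  exact ⟨g, by rw [← hg]; ring⟩

variable {K : Type} [Field K] [NumberField K] {N : ℕ} [NeZero N]
  [IsCyclotomicExtension {N} ℚ K]

lemma exists_poly {ζ : K} (hζ : IsPrimitiveRoot ζ N) {a : K} (ha : IsIntegral ℤ a) :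
    ∃ f : ℤ[X], a = aeval ζ f := by
  have h := IsCyclotomicExtension.Rat.isIntegralClosure_adjoin_singleton hζ
  obtain ⟨y, hy⟩ := h.isIntegral_iff.mp ha
  have h2 : a ∈ Algebra.adjoin ℤ {ζ} := by
    rw [← hy]
    exact y.2
  rw [Algebra.adjoin_singleton_eq_range_aeval] at h2
  obtain ⟨f, hf⟩ := h2
  exact ⟨f, hf.symm⟩

lemma isIntegral_zeta {ζ : K} (hζ : IsPrimitiveRoot ζ N) : IsIntegral ℤ ζ :=
  hζ.isIntegral (NeZero.pos N)

lemma isIntegral_aeval {ζ : K} (hζ : IsPrimitiveRoot ζ N) (g : ℤ[X]) :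
    IsIntegral ℤ (aeval ζ g) := by
  have h1 : aeval ζ g ∈ Algebra.adjoin ℤ {ζ} := by
    rw [Algebra.adjoin_singleton_eq_range_aeval]
    exact ⟨g, rfl⟩
  exact (Algebra.adjoin_le (S := integralClosure ℤ K)
    (Set.singleton_subset_iff.mpr (isIntegral_zeta hζ))) h1

lemma pow_five_aeval (ζ : K) (f : ℤ[X]) :
    ∃ g : ℤ[X], (aeval ζ f) ^ 5 = aeval (ζ ^ 5) f + 5 * aeval ζ g := by
  obtain ⟨g, hg⟩ := pow_five_expand f
  refine ⟨g, ?_⟩
  have h := congrArg (aeval ζ) hg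
  rw [map_pow, map_add, map_mul, expand_aeval, aeval_C] at h
  simpa using h

lemma aeval_alg (s : K ≃ₐ[ℚ] K) (x : K) (f : ℤ[X]) : aeval (s x) f = s (aeval x f) :=
  aeval_algHom_apply (s.toAlgHom.restrictScalars ℤ) x f

/-- the fifth Dickson polynomial -/
def D5 {R : Type} [CommRing R] (x : R) : R := x ^ 5 - 5 * x ^ 3 + 5 * x

lemma D5_hom {R S : Type} [CommRing R] [CommRing S] (f : R →+* S) (x : R) :
    f (D5 x) = D5 (f x) := by
  have h5 : f 5 = 5 := map_ofNat f 5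
  simp only [D5, map_add, map_sub, map_mul, map_pow, h5]

lemma D5_add_inv {z : ℂ} (hz : z ≠ 0) : D5 (z + z⁻¹) = z ^ 5 + (z⁻¹) ^ 5 := by
  unfold D5
  field_simp
  ring

lemma D5_unit {z : ℂ} (hz : ‖z‖ = 1) : ‖D5 (z + z⁻¹)‖ ≤ 2 := by
  have h0 : z ≠ 0 := by
    rintro rfl
    simp at hz
  rw [D5_add_inv h0]
  calc ‖z ^ 5 + (z⁻¹) ^ 5‖ ≤ ‖z ^ 5‖ + ‖(z⁻¹) ^ 5‖ := norm_add_le _ _
    _ = 2 := by rw [norm_pow, norm_pow, norm_inv, hz]; norm_num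

lemma add_unit {z : ℂ} (hz : ‖z‖ = 1) : ‖z + z⁻¹‖ ≤ 2 := by
  calc ‖z + z⁻¹‖ ≤ ‖z‖ + ‖z⁻¹‖ := norm_add_le _ _
    _ = 2 := by rw [norm_inv, hz]; norm_num

lemma exists_frob {ζ : K} (hζ : IsPrimitiveRoot ζ N) (h5 : ¬ 5 ∣ N) :
    ∃ σ : K ≃ₐ[ℚ] K, σ ζ = ζ ^ 5 := by
  have hcop : Nat.Coprime 5 N := (Nat.Prime.coprime_iff_not_dvd (by norm_num)).mpr h5
  have hζ5 : IsPrimitiveRoot (ζ ^ 5) N := hζ.pow_of_coprime 5 hcop
  have hirr : Irreducible (cyclotomic N ℚ) := cyclotomic.irreducible_rat (NeZero.pos N)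
  have h1 : minpoly ℚ ζ = cyclotomic N ℚ := (cyclotomic_eq_minpoly_rat hζ (NeZero.pos N)).symm
  have h2 : minpoly ℚ (ζ ^ 5) = cyclotomic N ℚ :=
    (cyclotomic_eq_minpoly_rat hζ5 (NeZero.pos N)).symm
  have hg : IsGalois ℚ K := IsCyclotomicExtension.isGalois {N} ℚ K
  have hc : IsConjRoot ℚ (ζ ^ 5) ζ := by
    unfold IsConjRoot
    rw [h1, h2]
  obtain ⟨σ, hσ⟩ := hc.exists_algEquiv
  exact ⟨σ, hσ⟩

/-- The choice of the automorphism and of the algebraic integer divisible by five. -/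
lemma exists_gamma {ζ : K} (hζ : IsPrimitiveRoot ζ N) {t : K} (ht : IsIntegral ℤ t)
    (hmin : 5 ∣ N → t ∉ IntermediateField.adjoin ℚ {ζ ^ 5}) :
    ∃ (σ : K ≃ₐ[ℚ] K) (δ : K), IsIntegral ℤ δ ∧
      ((D5 t - σ t = 5 * δ) ∨ (σ t ≠ t ∧ D5 t - D5 (σ t) = 5 * δ)) := by
  have hg : IsGalois ℚ K := IsCyclotomicExtension.isGalois {N} ℚ K
  obtain ⟨f, hf⟩ := exists_poly hζ ht
  obtain ⟨g, hg5⟩ := pow_five_aeval ζ f
  rw [← hf] at hg5
  have ht3 : ∀ x : K, IsIntegral ℤ x → IsIntegral ℤ (x ^ 3 - x) := fun x hx => (hx.pow 3).sub hx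
  by_cases h5 : 5 ∣ N
  · have h1 := hmin h5
    obtain ⟨σ, hσ1, hσ2⟩ : ∃ σ : K ≃ₐ[ℚ] K, σ (ζ ^ 5) = ζ ^ 5 ∧ σ t ≠ t := by
      by_contra hcon
      push Not at hcon
      apply h1
      rw [← IsGalois.fixedField_fixingSubgroup (IntermediateField.adjoin ℚ {ζ ^ 5}),
        IntermediateField.mem_fixedField_iff]
      intro s hs
      refine hcon s ?_
      rw [IntermediateField.mem_fixingSubgroup_iff] at hs
      exact hs _ (IntermediateField.mem_adjoin_simple_self ℚ _)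
    refine ⟨σ, aeval ζ g - σ (aeval ζ g) - (t ^ 3 - t) + ((σ t) ^ 3 - σ t), ?_, Or.inr ⟨hσ2, ?_⟩⟩
    · have hσt : IsIntegral ℤ (σ t) := ht.map (σ.toAlgHom.restrictScalars ℤ)
      have hσg : IsIntegral ℤ (σ (aeval ζ g)) :=
        (isIntegral_aeval hζ g).map (σ.toAlgHom.restrictScalars ℤ)
      exact (((isIntegral_aeval hζ g).sub hσg).sub (ht3 t ht)).add (ht3 _ hσt)
    · have h2 : (σ t) ^ 5 = aeval (ζ ^ 5) f + 5 * σ (aeval ζ g) := by
        rw [← map_pow, hg5, map_add, map_mul, ← aeval_alg, hσ1, map_ofNat]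
      unfold D5
      linear_combination hg5 - h2
  · obtain ⟨σ, hσ⟩ := exists_frob hζ h5
    refine ⟨σ, aeval ζ g - (t ^ 3 - t), (isIntegral_aeval hζ g).sub (ht3 t ht), Or.inl ?_⟩
    have h2 : σ t = aeval (ζ ^ 5) f := by
      rw [← hσ, aeval_alg, ← hf]
    unfold D5
    rw [h2]
    linear_combination hg5

end Pool.Agent.W628.AbSalem
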