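import Mathlib
import Pool.Agent.W628.AbSalem.Cyc

/-!
# The inequality for totally real cyclotomic integers with one conjugate outside `[-2, 2]`
-/

set_option autoImplicit false

namespace Pool.Agent.W628.AbSalem

open Polynomial Module

lemma inv_facts {β : ℝ} (hβ : 1 < β) : 0 < β⁻¹ ∧ β⁻¹ < 1 ∧ β * β⁻¹ = 1 :=
  ⟨by positivity, inv_lt_one_of_one_lt₀ hβ, mul_inv_cancel₀ (by linarith)⟩

lemma two_lt {β : ℝ} (hβ : 1 < β) : 2 < β + β⁻¹ := by
  obtain ⟨h1, h2, h3⟩ := inv_facts hβ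
  nlinarith

lemma b_lt_B {β : ℝ} (hβ : 1 < β) : β + β⁻¹ < β ^ 5 + (β⁻¹) ^ 5 := by
  obtain ⟨h1, h2, h3⟩ := inv_facts hβ
  set u := β⁻¹ with hu
  have h4 : 1 < β ^ 4 := one_lt_pow₀ hβ (by norm_num)
  have h5 : u ^ 5 < β := by
    have : u ^ 5 < 1 := pow_lt_one₀ h1.le h2 (by norm_num)
    linarith
  have h6 : u = β ^ 4 * u ^ 5 := by
    calc u = (β * u) ^ 4 * u := by rw [h3]; ring
      _ = β ^ 4 * u ^ 5 := by ring
  have h7 : 0 < (β ^ 4 - 1) * (β - u ^ 5) := mul_pos (by linarith) (by linarith)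
  nlinarith

lemma B_bound {B a a' : ℝ} (hB : 2 ≤ B) {P Q : Prop} [Decidable P] [Decidable Q]
    (h1 : a ≤ if P then B else 2) (h2 : a' ≤ if Q then B else 2) :
    a + a' ≤ 4 * ((if P then (B + 2) / 4 else 1) * (if Q then (B + 2) / 4 else 1)) := by
  split_ifs at h1 h2 ⊢ <;> nlinarith [sq_nonneg (B - 2)]

variable {K : Type} [Field K] [NumberField K] {N : ℕ} [NeZero N]
  [IsCyclotomicExtension {N} ℚ K]

theorem core {ζ : K} (hζ : IsPrimitiveRoot ζ N) (ι : K →ₐ[ℚ] ℂ) {t : K} (ht : IsIntegral ℤ t)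
    (hmin : 5 ∣ N → t ∉ IntermediateField.adjoin ℚ {ζ ^ 5}) {β : ℝ} (hβ : 1 < β)
    (hι : ι t = ((β + β⁻¹ : ℝ) : ℂ))
    (hgood : ∀ s : K ≃ₐ[ℚ] K, s t = t ∨ ∃ z : ℂ, ‖z‖ = 1 ∧ ι (s t) = z + z⁻¹) :
    (5 : ℝ) ^ (minpoly ℚ t).natDegree ≤
      4 ^ (minpoly ℚ t).natDegree * ((β ^ 5 + (β⁻¹) ^ 5 + 2) / 4) ^ 2 := by
  classical
  have hg : IsGalois ℚ K := IsCyclotomicExtension.isGalois {N} ℚ K
  obtain ⟨σ, δ, hδ, hcase⟩ := exists_gamma hζ ht hmin
  set B : ℝ := β ^ 5 + (β⁻¹) ^ 5 with hB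
  have hb2 := two_lt hβ
  have hbB := b_lt_B hβ
  have hB2 : 2 < B := by linarith
  have hβ0 : (β : ℂ) ≠ 0 := by
    exact_mod_cast (by linarith : β ≠ 0)
  have hDt : D5 (ι t) = (B : ℂ) := by
    rw [hι, hB]
    push_cast
    exact D5_add_inv hβ0
  have hDhom : ∀ x : K, ι (D5 x) = D5 (ι x) := fun x => D5_hom ι.toRingHom x
  have hDs : ∀ (s : K ≃ₐ[ℚ] K) (x : K), s (D5 x) = D5 (s x) :=
    fun s x => D5_hom (s : K →+* K) x
  have hnB : ‖(B : ℂ)‖ = B := by
    rw [Complex.norm_real, Real.norm_eq_abs, abs_of_pos (by linarith)]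
  -- general bound
  have hD : ∀ s : K ≃ₐ[ℚ] K, ‖D5 (ι (s t))‖ ≤ if s t = t then B else 2 := by
    intro s
    split_ifs with h
    · rw [h, hDt, hnB]
    · rcases hgood s with h1 | ⟨z, hz, h1⟩
      · exact absurd h1 h
      · rw [h1]
        exact D5_unit hz
  have hL : ∀ s : K ≃ₐ[ℚ] K, ‖ι (s t)‖ ≤ if s t = t then B else 2 := by
    intro s
    split_ifs with h
    · rw [h, hι, Complex.norm_real, Real.norm_eq_abs, abs_of_pos (by linarith)]
      exact hbB.le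
    · rcases hgood s with h1 | ⟨z, hz, h1⟩
      · exact absurd h1 h
      · rw [h1]
        exact add_unit hz
  have hW : 1 ≤ (B + 2) / 4 := by linarith
  rcases hcase with h | ⟨hσ, h⟩
  · refine main_ineq ι h hδ ?_ t σ hW ?_
    · intro h0
      have h1 : D5 t = σ t := sub_eq_zero.mp h0
      have h2 : (B : ℂ) = ι (σ t) := by rw [← h1, hDhom, hDt]
      have h3 : B = ‖ι (σ t)‖ := by rw [← h2, hnB]
      rcases hgood σ with h4 | ⟨z, hz, h4⟩
      · rw [h4, hι, Complex.norm_real, Real.norm_eq_abs, abs_of_pos (by linarith)] at h3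
        linarith
      · rw [h4] at h3
        have := add_unit hz
        linarith
    · intro s
      have h1 : ‖ι (s (D5 t - σ t))‖ ≤ ‖D5 (ι (s t))‖ + ‖ι (s (σ t))‖ := by
        rw [map_sub, map_sub, hDs, hDhom]
        exact norm_sub_le _ _
      have h2 := hL (s * σ)
      rw [AlgEquiv.mul_apply] at h2
      have h3 := B_bound hB2.le (hD s) h2
      refine h1.trans (h3.trans (le_of_eq ?_))
      congr
  · refine main_ineq ι h hδ ?_ t σ hW ?_
    · intro h0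
      have h1 : D5 t = D5 (σ t) := sub_eq_zero.mp h0
      have h2 : (B : ℂ) = D5 (ι (σ t)) := by rw [← hDhom, ← h1, hDhom, hDt]
      have h3 : B = ‖D5 (ι (σ t))‖ := by rw [← h2, hnB]
      rcases hgood σ with h4 | ⟨z, hz, h4⟩
      · exact hσ h4
      · rw [h4] at h3
        have := D5_unit hz
        linarith
    · intro s
      have h1 : ‖ι (s (D5 t - D5 (σ t)))‖ ≤ ‖D5 (ι (s t))‖ + ‖D5 (ι (s (σ t)))‖ := by
        rw [map_sub, map_sub, hDs, hDs, hDhom, hDhom]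
        exact norm_sub_le _ _
      have h2 := hD (s * σ)
      rw [AlgEquiv.mul_apply] at h2
      have h3 := B_bound hB2.le (hD s) h2
      refine h1.trans (h3.trans (le_of_eq ?_))
      congr

end Pool.Agent.W628.AbSalem
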