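import Mathlib
import Pool.Agent.W628.AbSalem.Core
import Pool.Agent.W628.AbSalem.Conj

/-!
# Numbers `β` all of whose other conjugates lie in the unit disc, with `β + 1/β` cyclotomic
-/

set_option autoImplicit false

namespace Pool.Agent.W628.AbSalem

open Polynomial Module
open Pool.Agent.H196R3.Parry

lemma cyc_inst {N : ℕ} [NeZero N] {ζ : ℂ} (hζ : IsPrimitiveRoot ζ N) :
    IsCyclotomicExtension {N} ℚ (IntermediateField.adjoin ℚ {ζ}) := by
  have halg : IsAlgebraic ℚ ζ :=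
    ((hζ.isIntegral (NeZero.pos N)).tower_top (A := ℚ)).isAlgebraic
  change IsCyclotomicExtension {N} ℚ (IntermediateField.adjoin ℚ {ζ}).toSubalgebra
  rw [IntermediateField.adjoin_simple_toSubalgebra_of_isAlgebraic halg]
  exact hζ.adjoin_isCyclotomicExtension ℚ

lemma cyc_eq {N : ℕ} [NeZero N] {ζ : ℂ} (hζ : IsPrimitiveRoot ζ N) :
    IntermediateField.adjoin ℚ {z : ℂ | z ^ N = 1} = IntermediateField.adjoin ℚ {ζ} := by
  apply le_antisymm
  · rw [IntermediateField.adjoin_le_iff]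
    intro z hz
    obtain ⟨i, -, rfl⟩ := hζ.eq_pow_of_pow_eq_one hz
    exact pow_mem (IntermediateField.mem_adjoin_simple_self ℚ ζ) i
  · rw [IntermediateField.adjoin_le_iff]
    intro z hz
    rw [Set.mem_singleton_iff] at hz
    subst hz
    exact IntermediateField.subset_adjoin _ _ hζ.pow_eq_one

lemma aeval_sub_root {F : IntermediateField ℚ ℂ} {β : ℝ} (hb : (β : ℂ) ∈ F)
    (s : F ≃ₐ[ℚ] F) : aeval ((s ⟨(β : ℂ), hb⟩ : F) : ℂ) (minpoly ℤ β) = 0 := by
  have hinj : Function.Injective (algebraMap F ℂ) := (algebraMap F ℂ).injective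
  have h1 : aeval (⟨(β : ℂ), hb⟩ : F) (minpoly ℤ β) = 0 := by
    apply hinj
    rw [map_zero, ← aeval_algebraMap_apply]
    exact aeval_self
  have h2 : aeval (s ⟨(β : ℂ), hb⟩) (minpoly ℤ β) = 0 := by
    have h6 : aeval (s ⟨(β : ℂ), hb⟩) (minpoly ℤ β) =
        s (aeval (⟨(β : ℂ), hb⟩ : F) (minpoly ℤ β)) :=
      aeval_algHom_apply (s.toAlgHom.restrictScalars ℤ) _ (minpoly ℤ β)
    rw [h6, h1, map_zero]
  have h7 : aeval (algebraMap F ℂ (s ⟨(β : ℂ), hb⟩)) (minpoly ℤ β) = 0 := by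
    rw [aeval_algebraMap_apply, h2, map_zero]
  exact h7

lemma real_case {N : ℕ} [NeZero N] {ζ : ℂ} (hζ : IsPrimitiveRoot ζ N) {β : ℝ} (hβ : 1 < β)
    (hint : IsIntegral ℤ β)
    (hone : ∀ z : ℂ, aeval z (minpoly ℤ β) = 0 → z ≠ (β : ℂ) → ‖z‖ ≤ 1)
    (hb : (β : ℂ) ∈ IntermediateField.adjoin ℚ {ζ}) : 2 ≤ β ^ 2 := by
  classical
  set F := IntermediateField.adjoin ℚ {ζ} with hF
  haveI hcyc : IsCyclotomicExtension {N} ℚ F := cyc_inst hζ
  haveI : NumberField F := IsCyclotomicExtension.numberField {N} ℚ F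
  haveI hg : IsGalois ℚ F := IsCyclotomicExtension.isGalois {N} ℚ F
  have hcomm : IsMulCommutative (F ≃ₐ[ℚ] F) := IsCyclotomicExtension.isMulCommutative {N} ℚ F
  by_contra hlt
  push Not at hlt
  set b : F := ⟨(β : ℂ), hb⟩ with hbdef
  let c : F ≃ₐ[ℚ] F := AlgEquiv.restrictNormal (Complex.conjAe.restrictScalars ℚ) F
  have hc : ∀ x : F, ((c x : F) : ℂ) = (starRingEnd ℂ) (x : ℂ) := by
    intro x
    exact AlgEquiv.restrictNormal_commutes (Complex.conjAe.restrictScalars ℚ) F x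
  have hcb : c b = b := by
    apply Subtype.ext
    rw [hc]
    exact Complex.conj_ofReal β
  have hreal : ∀ s : F ≃ₐ[ℚ] F, ∃ r : ℝ, ((s b : F) : ℂ) = r := by
    intro s
    rw [← Complex.conj_eq_iff_real, ← hc]
    have h1 : c * s = s * c := hcomm.is_comm.comm c s
    have h2 : c (s b) = s (c b) := by
      rw [← AlgEquiv.mul_apply, h1, AlgEquiv.mul_apply]
    rw [h2, hcb]
  have hbint : IsIntegral ℤ b := by
    refine ⟨minpoly ℤ β, minpoly.monic hint, ?_⟩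
    have hinj : Function.Injective (algebraMap F ℂ) := (algebraMap F ℂ).injective
    have h1 : aeval b (minpoly ℤ β) = 0 := by
      apply hinj
      rw [map_zero, ← aeval_algebraMap_apply]
      exact aeval_self
    exact h1
  have hγint : IsIntegral ℤ (b ^ 2 - 1) := (hbint.pow 2).sub isIntegral_one
  have hγ0 : b ^ 2 - 1 ≠ 0 := by
    intro h
    have h1 := congrArg (fun x : F => (x : ℂ)) h
    push_cast at h1
    have h2 : (β : ℂ) ^ 2 - 1 = 0 := h1
    have h3 : β ^ 2 - 1 = 0 := by exact_mod_cast h2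
    nlinarith
  have hprod := one_le_prod F.val hγint hγ0
  have hval : ∀ s : F ≃ₐ[ℚ] F, F.val (s (b ^ 2 - 1)) = ((s b : F) : ℂ) ^ 2 - 1 := by
    intro s
    rw [map_sub, map_pow, map_one]
    simp
  have hle : ∀ s : F ≃ₐ[ℚ] F, ‖F.val (s (b ^ 2 - 1))‖ ≤ 1 := by
    intro s
    rw [hval]
    obtain ⟨r, hr⟩ := hreal s
    have hroot := aeval_sub_root hb s
    rw [← hbdef, hr] at hroot
    rw [hr]
    have h1 : (r : ℂ) ^ 2 - 1 = ((r ^ 2 - 1 : ℝ) : ℂ) := by push_cast; ring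
    rw [h1, Complex.norm_real, Real.norm_eq_abs, abs_le]
    by_cases h2 : (r : ℂ) = (β : ℂ)
    · have h3 : r = β := by exact_mod_cast h2
      subst h3
      constructor <;> nlinarith
    · have h3 := hone _ hroot h2
      rw [Complex.norm_real, Real.norm_eq_abs] at h3
      have h4 : r ^ 2 ≤ 1 := by
        rw [← sq_abs]
        exact pow_le_one₀ (abs_nonneg _) h3
      constructor <;> nlinarith [sq_nonneg r]
  have h1 : ‖F.val ((1 : F ≃ₐ[ℚ] F) (b ^ 2 - 1))‖ < 1 := by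
    rw [hval]
    have h2 : (((1 : F ≃ₐ[ℚ] F) b : F) : ℂ) = (β : ℂ) := rfl
    rw [h2]
    have h3 : (β : ℂ) ^ 2 - 1 = ((β ^ 2 - 1 : ℝ) : ℂ) := by push_cast; ring
    rw [h3, Complex.norm_real, Real.norm_eq_abs, abs_of_pos (by nlinarith)]
    linarith
  rw [← Finset.mul_prod_erase Finset.univ _ (Finset.mem_univ (1 : F ≃ₐ[ℚ] F))] at hprod
  have h2 : ∏ s ∈ Finset.univ.erase (1 : F ≃ₐ[ℚ] F), ‖F.val (s (b ^ 2 - 1))‖ ≤ 1 :=
    Finset.prod_le_one (fun s _ => norm_nonneg _) (fun s _ => hle s)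
  have h3 : ‖F.val ((1 : F ≃ₐ[ℚ] F) (b ^ 2 - 1))‖ *
      ∏ s ∈ Finset.univ.erase (1 : F ≃ₐ[ℚ] F), ‖F.val (s (b ^ 2 - 1))‖ < 1 := by
    calc _ ≤ ‖F.val ((1 : F ≃ₐ[ℚ] F) (b ^ 2 - 1))‖ * 1 :=
          mul_le_mul_of_nonneg_left h2 (norm_nonneg _)
      _ < 1 := by rw [mul_one]; exact h1
  exact absurd hprod (not_le.mpr h3)

theorem bound {β : ℝ} (hβ : 1 < β) (hint : IsIntegral ℤ β)
    (hone : ∀ z : ℂ, aeval z (minpoly ℤ β) = 0 → z ≠ (β : ℂ) → ‖z‖ ≤ 1)
    (hex : ∃ N : ℕ, 0 < N ∧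
      ((β + β⁻¹ : ℝ) : ℂ) ∈ IntermediateField.adjoin ℚ {z : ℂ | z ^ N = 1}) :
    2 ≤ β ^ 2 ∨ (IsIntegral ℤ (β + β⁻¹) ∧
      (5 : ℝ) ^ (minpoly ℚ (β + β⁻¹)).natDegree ≤
        4 ^ (minpoly ℚ (β + β⁻¹)).natDegree * ((β ^ 5 + (β⁻¹) ^ 5 + 2) / 4) ^ 2) := by
  classical
  obtain ⟨hN, hmem⟩ := Nat.find_spec hex
  have hmin := fun m (h : m < Nat.find hex) => Nat.find_min hex h
  set N := Nat.find hex with hNdef
  haveI : NeZero N := ⟨by omega⟩
  have hζ : IsPrimitiveRoot (Complex.exp (2 * Real.pi * Complex.I / N)) N :=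
    Complex.isPrimitiveRoot_exp N (NeZero.ne N)
  set ζ := Complex.exp (2 * Real.pi * Complex.I / N) with hζdef
  rw [cyc_eq hζ] at hmem
  set F := IntermediateField.adjoin ℚ {ζ} with hF
  by_cases hb : (β : ℂ) ∈ F
  · exact Or.inl (real_case hζ hβ hint hone hb)
  right
  haveI hcyc : IsCyclotomicExtension {N} ℚ F := cyc_inst hζ
  haveI : NumberField F := IsCyclotomicExtension.numberField {N} ℚ F
  have hinv := inv_root hβ F hmem hb
  have hinj : Function.Injective (algebraMap F ℂ) := (algebraMap F ℂ).injective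
  have hβC : IsIntegral ℤ (β : ℂ) := ⟨minpoly ℤ β, minpoly.monic hint, aeval_self⟩
  have hβC' : IsIntegral ℤ ((β : ℂ)⁻¹) := ⟨minpoly ℤ β, minpoly.monic hint, hinv⟩
  have hτC : IsIntegral ℤ (((β + β⁻¹ : ℝ) : ℂ)) := by
    push_cast
    exact hβC.add hβC'
  have hτR : IsIntegral ℤ (β + β⁻¹) :=
    (isIntegral_algebraMap_iff (algebraMap ℝ ℂ).injective).mp hτC
  refine ⟨hτR, ?_⟩
  set t : F := ⟨((β + β⁻¹ : ℝ) : ℂ), hmem⟩ with ht
  have htint : IsIntegral ℤ t := (isIntegral_algebraMap_iff hinj).mp hτC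
  have hmt : minpoly ℚ t = minpoly ℚ (((β + β⁻¹ : ℝ) : ℂ)) := (minpoly.algebraMap_eq hinj t).symm
  have hmR : minpoly ℚ (((β + β⁻¹ : ℝ) : ℂ)) = minpoly ℚ (β + β⁻¹) :=
    minpoly.algebraMap_eq (algebraMap ℝ ℂ).injective (β + β⁻¹)
  have hζF : IsPrimitiveRoot (⟨ζ, IntermediateField.mem_adjoin_simple_self ℚ ζ⟩ : F) N := by
    apply IsPrimitiveRoot.of_map_of_injective (f := algebraMap F ℂ) _ hinj
    exact hζ
  have hgood : ∀ s : F ≃ₐ[ℚ] F, s t = t ∨ ∃ z : ℂ, ‖z‖ = 1 ∧ F.val (s t) = z + z⁻¹ := by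
    intro s
    have h1 : minpoly ℚ ((s t : F) : ℂ) = minpoly ℚ (((β + β⁻¹ : ℝ) : ℂ)) := by
      rw [← hmt, ← minpoly.algEquiv_eq s t]
      exact minpoly.algebraMap_eq hinj (s t)
    obtain ⟨z, hz, hzy⟩ := conj_lift hβ hint h1
    by_cases h2 : z = (β : ℂ)
    · left
      apply Subtype.ext
      rw [← hzy, h2, ht]
      push_cast
      rfl
    by_cases h3 : z⁻¹ = (β : ℂ)
    · left
      have h4 : z = (β : ℂ)⁻¹ := by rw [← h3, inv_inv]
      apply Subtype.ext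
      rw [← hzy, h4, inv_inv]
      change (β : ℂ)⁻¹ + (β : ℂ) = ((β + β⁻¹ : ℝ) : ℂ)
      push_cast
      ring
    right
    refine ⟨z, ?_, hzy.symm⟩
    have hz0 : z ≠ 0 := conj_ne_zero hβ hint hz
    have h4 := hone z hz h2
    have h5 := hone z⁻¹ (recip hβ hint hinv hz) h3
    rw [norm_inv] at h5
    have h6 : 0 < ‖z‖ := norm_pos_iff.mpr hz0
    have h7 : 1 ≤ ‖z‖ := by
      rw [inv_le_one₀ h6] at h5
      exact h5
    linarith
  have hmin5 : 5 ∣ N → t ∉ IntermediateField.adjoin ℚ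
      {(⟨ζ, IntermediateField.mem_adjoin_simple_self ℚ ζ⟩ : F) ^ 5} := by
    rintro ⟨m, hm⟩ hcon
    have hm0 : 0 < m := by omega
    refine hmin m (by omega) ⟨hm0, ?_⟩
    have key : ∀ x ∈ IntermediateField.adjoin ℚ
        {(⟨ζ, IntermediateField.mem_adjoin_simple_self ℚ ζ⟩ : F) ^ 5},
        (x : ℂ) ∈ IntermediateField.adjoin ℚ {z : ℂ | z ^ m = 1} := by
      intro x hx
      induction hx using IntermediateField.adjoin_induction with
      | mem x hx =>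
        rw [Set.mem_singleton_iff] at hx
        rw [hx]
        apply IntermediateField.subset_adjoin
        change (ζ ^ 5) ^ m = 1
        rw [← pow_mul, ← hm]
        exact hζ.pow_eq_one
      | algebraMap x =>
        rw [eq_ratCast]
        push_cast
        exact SubfieldClass.ratCast_mem _ x
      | add x y _ _ hx hy => exact add_mem hx hy
      | inv x _ hx => exact inv_mem hx
      | mul x y _ _ hx hy => exact mul_mem hx hy
    exact key t hcon
  have hcore := core hζF F.val htint hmin5 hβ rfl hgood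
  rwa [hmt, hmR] at hcore

end Pool.Agent.W628.AbSalem
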