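import Mathlib

/-!
# Conjugates of `α + 1/α` for complex `α`
-/

set_option autoImplicit false

namespace Pool.Agent.W628.AbSalem

open Polynomial Module

lemma conj_lift2 {α : ℂ} (hα : IsIntegral ℤ α) (hα0 : α ≠ 0) {y : ℂ}
    (hy : minpoly ℚ y = minpoly ℚ (α + α⁻¹)) :
    ∃ z : ℂ, z + z⁻¹ = y ∧ z ≠ 0 ∧ (∀ g : ℤ[X], aeval α g = 0 → aeval z g = 0) ∧
      (∀ g : ℤ[X], aeval α⁻¹ g = 0 → aeval z⁻¹ g = 0) := by
  have hαA : α ∈ algebraicClosure ℚ ℂ := by
    rw [mem_algebraicClosure_iff]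
    exact (hα.tower_top (A := ℚ)).isAlgebraic
  set b : algebraicClosure ℚ ℂ := ⟨α, hαA⟩ with hb
  set t : algebraicClosure ℚ ℂ := b + b⁻¹ with ht
  have htc : (t : ℂ) = α + α⁻¹ := by
    rw [ht]
    push_cast
    rfl
  have hinj : Function.Injective (algebraMap (algebraicClosure ℚ ℂ) ℂ) :=
    (algebraMap (algebraicClosure ℚ ℂ) ℂ).injective
  have hmt : minpoly ℚ t = minpoly ℚ y := by
    rw [hy, ← htc]
    exact (minpoly.algebraMap_eq hinj t).symm
  have hac : IsAlgClosure ℚ (algebraicClosure ℚ ℂ) := algebraicClosure.isAlgClosure ℚ ℂ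
  have halg : Algebra.IsAlgebraic ℚ (algebraicClosure ℚ ℂ) := hac.isAlgebraic
  have htint : IsIntegral ℚ t := (halg.isAlgebraic t).isIntegral
  have hy0 : minpoly ℚ y ≠ 0 := by
    rw [← hmt]
    exact minpoly.ne_zero htint
  have hyA : y ∈ algebraicClosure ℚ ℂ := by
    rw [mem_algebraicClosure_iff]
    exact ⟨minpoly ℚ y, hy0, minpoly.aeval ℚ y⟩
  set y' : algebraicClosure ℚ ℂ := ⟨y, hyA⟩ with hy'
  have hconj : IsConjRoot ℚ y' t := by
    unfold IsConjRoot
    rw [hmt]
    exact (minpoly.algebraMap_eq hinj y').symm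
  have hnor : Normal ℚ (algebraicClosure ℚ ℂ) := IsAlgClosure.normal ℚ _
  obtain ⟨σ, hσ⟩ := hconj.exists_algEquiv
  have htrans : ∀ (x : algebraicClosure ℚ ℂ) (g : ℤ[X]), aeval (x : ℂ) g = 0 →
      aeval ((σ x : algebraicClosure ℚ ℂ) : ℂ) g = 0 := by
    intro x g hg
    have h4 : aeval x g = 0 := by
      apply hinj
      rw [map_zero, ← aeval_algebraMap_apply]
      exact hg
    have h5 : aeval (σ x) g = 0 := by
      have h6 : aeval (σ x) g = σ (aeval x g) :=
        (aeval_algHom_apply (σ.toAlgHom.restrictScalars ℤ) x g)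
      rw [h6, h4, map_zero]
    have h7 : aeval (algebraMap (algebraicClosure ℚ ℂ) ℂ (σ x)) g = 0 := by
      rw [aeval_algebraMap_apply, h5, map_zero]
    exact h7
  refine ⟨((σ b : algebraicClosure ℚ ℂ) : ℂ), ?_, ?_, ?_, ?_⟩
  · have h8 : σ b + (σ b)⁻¹ = y' := by
      rw [← map_inv₀, ← map_add, ← ht, hσ]
    have h9 := congrArg (fun x : algebraicClosure ℚ ℂ => (x : ℂ)) h8
    push_cast at h9
    exact h9
  · intro h
    have h1 : σ b = 0 := Subtype.ext h
    have h2 : b = 0 := (map_eq_zero_iff σ σ.injective).mp h1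
    exact hα0 (congrArg Subtype.val h2)
  · intro g hg
    exact htrans b g hg
  · intro g hg
    have h1 := htrans b⁻¹ g (by push_cast; exact hg)
    rw [map_inv₀] at h1
    push_cast at h1
    exact h1

lemma inv_root2 {α : ℂ} (hα0 : α ≠ 0) (F : IntermediateField ℚ ℂ)
    (hF : α + α⁻¹ ∈ F) (hn : α ∉ F) (g : ℤ[X]) (hg : aeval α g = 0) : aeval α⁻¹ g = 0 := by
  set τ : F := ⟨_, hF⟩ with hτ
  set q : F[X] := X ^ 2 - C τ * X + 1 with hq
  have hdeg : q.natDegree = 2 := by rw [hq]; compute_degree!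
  have hmon : q.Monic := by rw [hq]; monicity!
  have hev : ∀ z : ℂ, aeval z q = z ^ 2 - (α + α⁻¹) * z + 1 := by
    intro z
    rw [hq]
    simp [hτ]
  have hroot : aeval α q = 0 := by
    rw [hev]
    field_simp
    ring
  have hroot' : aeval α⁻¹ q = 0 := by
    rw [hev]
    field_simp
    ring
  have hint : IsIntegral F α := ⟨q, hmon, hroot⟩
  have hdvd : minpoly F α ∣ q := minpoly.dvd F _ hroot
  have hle : (minpoly F α).natDegree ≤ 2 := by
    rw [← hdeg]
    exact natDegree_le_of_dvd hdvd hmon.ne_zero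
  have hpos : 0 < (minpoly F α).natDegree := minpoly.natDegree_pos hint
  have hne1 : (minpoly F α).natDegree ≠ 1 := by
    intro h1
    rw [minpoly.natDegree_eq_one_iff] at h1
    obtain ⟨x, hx⟩ := h1
    apply hn
    rw [← hx]
    exact x.2
  have heq : minpoly F α = q :=
    (eq_of_monic_of_dvd_of_natDegree_le (minpoly.monic hint) hmon hdvd (by omega)).symm ▸ rfl
  have hP : aeval α (g.map (algebraMap ℤ F)) = 0 := by
    rw [aeval_map_algebraMap]
    exact hg
  obtain ⟨r, hr⟩ := minpoly.dvd F _ hP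
  have h3 : aeval α⁻¹ (g.map (algebraMap ℤ F)) = 0 := by
    rw [hr, heq, map_mul, hroot', zero_mul]
  rwa [aeval_map_algebraMap] at h3

lemma prod_one_le (B : Multiset ℂ) : 1 ≤ (B.map (fun a => max 1 ‖a‖)).prod := by
  induction B using Multiset.induction_on with
  | empty => simp
  | cons a s ih =>
    rw [Multiset.map_cons, Multiset.prod_cons]
    exact one_le_mul_of_one_le_of_one_le (le_max_left _ _) ih

/-- A product over distinct zeros is at most the Mahler measure, if the leading coefficient has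
norm at least one. -/
lemma prod_le_mahler {p : ℂ[X]} (hlc : 1 ≤ ‖p.leadingCoeff‖) (hp : p ≠ 0) (S : Finset ℂ)
    (hS : ∀ z ∈ S, p.IsRoot z) : ∏ z ∈ S, ‖z‖ ≤ p.mahlerMeasure := by
  rw [mahlerMeasure_eq_leadingCoeff_mul_prod_roots]
  have hle : S.val ≤ p.roots := by
    rw [Multiset.le_iff_subset S.nodup]
    intro z hz
    rw [mem_roots hp]
    exact hS z hz
  obtain ⟨C', hC⟩ := Multiset.le_iff_exists_add.mp hle
  rw [hC, Multiset.map_add, Multiset.prod_add]
  have h1 := prod_one_le C'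
  have h2 : ∏ z ∈ S, ‖z‖ ≤ (S.val.map (fun a => max 1 ‖a‖)).prod :=
    Finset.prod_le_prod (fun z _ => norm_nonneg z) (fun z _ => le_max_right _ _)
  have h3 := prod_one_le S.val
  calc ∏ z ∈ S, ‖z‖ ≤ (S.val.map (fun a => max 1 ‖a‖)).prod := h2
    _ = 1 * ((S.val.map (fun a => max 1 ‖a‖)).prod * 1) := by ring
    _ ≤ _ := by
      apply mul_le_mul hlc _ (by linarith) (by linarith)
      exact mul_le_mul_of_nonneg_left h1 (by linarith)

end Pool.Agent.W628.AbSalem
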