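import Mathlib
import Pool.Agent.W628.AbSalem.Cyc

/-!
# The inequality for general cyclotomic integers
-/

set_option autoImplicit false

namespace Pool.Agent.W628.AbSalem

open Polynomial Module

/-- the weight `(R^5 + R^(-5) + 2) / 4` -/
noncomputable def Wt (R : ℝ) : ℝ := (R ^ 5 + 1) ^ 2 / (4 * R ^ 5)

lemma Wt_eq {R : ℝ} (hR : 0 < R) : 4 * Wt R = R ^ 5 + (R⁻¹) ^ 5 + 2 := by
  unfold Wt
  field_simp
  ring

lemma one_le_Wt {R : ℝ} (hR : 1 ≤ R) : 1 ≤ Wt R := by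
  have hx : 0 < R ^ 5 := by positivity
  unfold Wt
  rw [le_div_iff₀ (by positivity)]
  nlinarith [sq_nonneg (R ^ 5 - 1)]

lemma Wt_mono {a b : ℝ} (ha : 1 ≤ a) (hab : a ≤ b) : Wt a ≤ Wt b := by
  have hx : 1 ≤ a ^ 5 := one_le_pow₀ ha
  have hxy : a ^ 5 ≤ b ^ 5 := pow_le_pow_left₀ (by linarith) hab 5
  unfold Wt
  rw [div_le_div_iff₀ (by positivity) (by linarith)]
  set x := a ^ 5
  set y := b ^ 5
  have h1 : 0 ≤ (y - x) * (x * y - 1) := mul_nonneg (by linarith) (by nlinarith)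
  nlinarith

lemma Wt_mul {a b : ℝ} (ha : 1 ≤ a) (hb : 1 ≤ b) : Wt a * Wt b ≤ Wt (a * b) := by
  have hx : 1 ≤ a ^ 5 := one_le_pow₀ ha
  have hy : 1 ≤ b ^ 5 := one_le_pow₀ hb
  unfold Wt
  rw [mul_pow, div_mul_div_comm, div_le_div_iff₀ (by positivity) (by positivity)]
  set x := a ^ 5
  set y := b ^ 5
  have h1 : (x + 1) * (y + 1) ≤ 2 * (x * y + 1) := by nlinarith
  have h2 : ((x + 1) * (y + 1)) ^ 2 ≤ (2 * (x * y + 1)) ^ 2 :=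
    pow_le_pow_left₀ (by positivity) h1 2
  have h3 : 0 ≤ x * y := by positivity
  nlinarith [mul_le_mul_of_nonneg_left h2 (by linarith : (0:ℝ) ≤ 4 * (x * y))]

lemma Wt_prod {ι : Type} (s : Finset ι) (r : ι → ℝ) (hr : ∀ i ∈ s, 1 ≤ r i) :
    (1 ≤ ∏ i ∈ s, r i) ∧ ∏ i ∈ s, Wt (r i) ≤ Wt (∏ i ∈ s, r i) := by
  classical
  induction s using Finset.induction_on with
  | empty =>
    simp only [Finset.prod_empty, le_refl, true_and]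
    exact one_le_Wt le_rfl
  | insert a s ha ih =>
    obtain ⟨h1, h2⟩ := ih (fun i hi => hr i (Finset.mem_insert_of_mem hi))
    have h3 := hr a (Finset.mem_insert_self a s)
    rw [Finset.prod_insert ha, Finset.prod_insert ha]
    refine ⟨one_le_mul_of_one_le_of_one_le h3 h1, ?_⟩
    have h4 : 0 ≤ Wt (r a) := by linarith [one_le_Wt h3]
    exact (mul_le_mul_of_nonneg_left h2 h4).trans (Wt_mul h3 h1)

lemma Wt_bound {R R' a a' : ℝ} (hR : 1 ≤ R) (hR' : 1 ≤ R') (h1 : a ≤ R ^ 5 + (R⁻¹) ^ 5)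
    (h2 : a' ≤ R' ^ 5 + (R'⁻¹) ^ 5) : a + a' ≤ 4 * (Wt R * Wt R') := by
  have e1 := Wt_eq (by linarith : 0 < R)
  have e2 := Wt_eq (by linarith : 0 < R')
  have f1 := one_le_Wt hR
  have f2 := one_le_Wt hR'
  have h3 : 0 ≤ (Wt R - 1) * (Wt R' - 1) := mul_nonneg (by linarith) (by linarith)
  nlinarith

lemma norm_D5 {z : ℂ} (hz : z ≠ 0) : ‖D5 (z + z⁻¹)‖ ≤ ‖z‖ ^ 5 + (‖z‖⁻¹) ^ 5 := by
  rw [D5_add_inv hz]
  calc ‖z ^ 5 + (z⁻¹) ^ 5‖ ≤ ‖z ^ 5‖ + ‖(z⁻¹) ^ 5‖ := norm_add_le _ _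
    _ = _ := by rw [norm_pow, norm_pow, norm_inv]

lemma norm_lin {z : ℂ} (hz : 1 ≤ ‖z‖) : ‖z + z⁻¹‖ ≤ ‖z‖ ^ 5 + (‖z‖⁻¹) ^ 5 := by
  have h1 : ‖z + z⁻¹‖ ≤ ‖z‖ + ‖z‖⁻¹ := by
    calc ‖z + z⁻¹‖ ≤ ‖z‖ + ‖z⁻¹‖ := norm_add_le _ _
      _ = _ := by rw [norm_inv]
  refine h1.trans ?_
  set R := ‖z‖
  have hR0 : 0 < R := by linarith
  set u := R⁻¹ with hu
  have hu0 : 0 < u := by positivity
  have hu1 : u ≤ 1 := inv_le_one_of_one_le₀ hz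
  have h3 : R * u = 1 := mul_inv_cancel₀ (by linarith)
  have h4 : 1 ≤ R ^ 4 := one_le_pow₀ hz
  have h5 : u ^ 5 ≤ R := by
    have : u ^ 5 ≤ 1 := pow_le_one₀ hu0.le hu1
    linarith
  have h6 : u = R ^ 4 * u ^ 5 := by
    calc u = (R * u) ^ 4 * u := by rw [h3]; ring
      _ = R ^ 4 * u ^ 5 := by ring
  have h7 : 0 ≤ (R ^ 4 - 1) * (R - u ^ 5) := mul_nonneg (by linarith) (by linarith)
  nlinarith

variable {K : Type} [Field K] [NumberField K] [IsGalois ℚ K]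

open Classical in
lemma prod_orbit (t : K) (F : K → ℝ) :
    ∏ s : K ≃ₐ[ℚ] K, F (s t) =
      (∏ y ∈ Finset.univ.image (fun s : K ≃ₐ[ℚ] K => s t), F y) ^
        (Finset.univ.filter (fun s : K ≃ₐ[ℚ] K => s t = t)).card := by
  rw [Finset.prod_comp (fun y => F y) (fun s : K ≃ₐ[ℚ] K => s t), ← Finset.prod_pow]
  refine Finset.prod_congr rfl fun y hy => ?_
  obtain ⟨s0, -, rfl⟩ := Finset.mem_image.mp hy
  congr 1
  refine Finset.card_bij (fun s _ => s0⁻¹ * s) ?_ ?_ ?_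
  · intro s hs
    rw [Finset.mem_filter] at hs ⊢
    refine ⟨Finset.mem_univ _, ?_⟩
    rw [AlgEquiv.mul_apply, hs.2]
    exact AlgEquiv.symm_apply_apply s0 t
  · intro a _ b _ hab
    exact mul_left_cancel hab
  · intro s hs
    rw [Finset.mem_filter] at hs
    refine ⟨s0 * s, ?_, ?_⟩
    · rw [Finset.mem_filter]
      exact ⟨Finset.mem_univ _, by rw [AlgEquiv.mul_apply, hs.2]⟩
    · rw [inv_mul_cancel_left]

open Classical in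
lemma main_ineq2 (ι : K →ₐ[ℚ] ℂ) {γ δ : K} (h : γ = 5 * δ) (hδ : IsIntegral ℤ δ)
    (h0 : γ ≠ 0) (t : K) (σ : K ≃ₐ[ℚ] K) (r : K → ℝ) (hr : ∀ s : K ≃ₐ[ℚ] K, 1 ≤ r (s t))
    (hb : ∀ s : K ≃ₐ[ℚ] K, ‖ι (s γ)‖ ≤ 4 * (Wt (r (s t)) * Wt (r (s (σ t))))) :
    (5 : ℝ) ^ (minpoly ℚ t).natDegree ≤ 4 ^ (minpoly ℚ t).natDegree *
      Wt (∏ y ∈ Finset.univ.image (fun s : K ≃ₐ[ℚ] K => s t), r y) ^ 2 := by
  set m := (Finset.univ.filter (fun s : K ≃ₐ[ℚ] K => s t = t)).card with hm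
  set k := (minpoly ℚ t).natDegree with hk
  have hcard : m * k = Fintype.card (K ≃ₐ[ℚ] K) := stab_card t
  have hm0 : m ≠ 0 := by
    intro h
    rw [h, zero_mul] at hcard
    exact Fintype.card_ne_zero hcard.symm
  have h1 := five_pow_le ι h hδ h0
  have h2 : ∏ s : K ≃ₐ[ℚ] K, ‖ι (s γ)‖ ≤ ∏ s : K ≃ₐ[ℚ] K,
      (4 * (Wt (r (s t)) * Wt (r (s (σ t))))) :=
    Finset.prod_le_prod (fun s _ => norm_nonneg _) (fun s _ => hb s)
  set Q := ∏ y ∈ Finset.univ.image (fun s : K ≃ₐ[ℚ] K => s t), Wt (r y) with hQ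
  have h3 : ∏ s : K ≃ₐ[ℚ] K, Wt (r (s t)) = Q ^ m := prod_orbit t (fun y => Wt (r y))
  have h4 : ∏ s : K ≃ₐ[ℚ] K, Wt (r (s (σ t))) = Q ^ m := by
    rw [← h3]
    refine Fintype.prod_equiv (Equiv.mulRight σ) _ _ (fun s => ?_)
    simp only [Equiv.coe_mulRight, AlgEquiv.mul_apply]
  have h5 : ∏ s : K ≃ₐ[ℚ] K, (4 * (Wt (r (s t)) * Wt (r (s (σ t))))) =
      (4 ^ k * Q ^ 2) ^ m := by
    rw [Finset.prod_mul_distrib, Finset.prod_mul_distrib, h3, h4, Finset.prod_const,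
      Finset.card_univ, ← hcard]
    ring
  rw [h5] at h2
  rw [← hcard, mul_comm m k, pow_mul] at h1
  have hr' : ∀ y ∈ Finset.univ.image (fun s : K ≃ₐ[ℚ] K => s t), 1 ≤ r y := by
    intro y hy
    obtain ⟨s, -, rfl⟩ := Finset.mem_image.mp hy
    exact hr s
  have hQ1 : 0 ≤ Q := Finset.prod_nonneg fun y hy => by linarith [one_le_Wt (hr' y hy)]
  have h6 := le_of_pow_le_pow_left₀ hm0 (by positivity) (h1.trans h2)
  have h7 := (Wt_prod _ r hr').2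
  refine h6.trans ?_
  have h8 := pow_le_pow_left₀ hQ1 h7 2
  exact mul_le_mul_of_nonneg_left h8 (by positivity)

end Pool.Agent.W628.AbSalem
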