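import Mathlib
import Pool.Agent.W628.AbSalem.Gen

/-!
# Nonvanishing and the inequality for numbers quadratic over a cyclotomic field
-/

set_option autoImplicit false

namespace Pool.Agent.W628.AbSalem

open Polynomial Module

lemma pm_of_add_inv {w z : ℂ} (hw : w ≠ 0) (hz : z ≠ 0) (h : w + w⁻¹ = z + z⁻¹) :
    w = z ∨ w = z⁻¹ := by
  have h1 : (w - z) * (w * z - 1) = 0 := by
    have h2 : (w + w⁻¹) * (w * z) = (z + z⁻¹) * (w * z) := by rw [h]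
    field_simp at h2
    linear_combination h2
  rcases mul_eq_zero.mp h1 with h2 | h2
  · left
    exact sub_eq_zero.mp h2
  · right
    exact eq_inv_of_mul_eq_one_left (sub_eq_zero.mp h2)

lemma D5_iter {z : ℂ} (hz : z ≠ 0) (n : ℕ) :
    (D5 : ℂ → ℂ)^[n] (z + z⁻¹) = z ^ (5 ^ n) + (z ^ (5 ^ n))⁻¹ := by
  induction n with
  | zero => simp
  | succ n ih =>
    have h1 : z ^ (5 ^ (n + 1)) = (z ^ (5 ^ n)) ^ 5 := by rw [pow_succ 5 n, pow_mul]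
    rw [Function.iterate_succ_apply', ih, D5_add_inv (pow_ne_zero _ hz), h1, inv_pow]

variable {K : Type} [Field K] [NumberField K] {N : ℕ} [NeZero N]
  [IsCyclotomicExtension {N} ℚ K]

lemma nonzero1 (ι : K →ₐ[ℚ] ℂ) {t : K} (σ : K ≃ₐ[ℚ] K) {z : ℂ} (hz : z ≠ 0)
    (hzt : z + z⁻¹ = ι t) (hroot : ∀ n : ℕ, 0 < n → z ^ n ≠ 1) : D5 t - σ t ≠ 0 := by
  intro h0
  have h1 : D5 t = σ t := sub_eq_zero.mp h0
  have hDs : ∀ (s : K ≃ₐ[ℚ] K) (x : K), s (D5 x) = D5 (s x) :=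
    fun s x => D5_hom (s : K →+* K) x
  have hit : ∀ n : ℕ, (D5 : K → K)^[n] t = (σ ^ n) t := by
    intro n
    induction n with
    | zero => simp
    | succ n ih =>
      rw [Function.iterate_succ_apply', ih, ← hDs, h1, pow_succ, AlgEquiv.mul_apply]
  have hitc : ∀ (n : ℕ) (x : K), ι ((D5 : K → K)^[n] x) = (D5 : ℂ → ℂ)^[n] (ι x) := by
    intro n x
    induction n with
    | zero => simp
    | succ n ih =>
      rw [Function.iterate_succ_apply', Function.iterate_succ_apply', ← ih]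
      exact D5_hom ι.toRingHom _
  have hn := orderOf_pos σ
  set n := orderOf σ with hndef
  have h2 := hit n
  rw [pow_orderOf_eq_one] at h2
  have h3 := congrArg ι h2
  rw [hitc, ← hzt, D5_iter hz] at h3
  have h4 : ι ((1 : K ≃ₐ[ℚ] K) t) = z + z⁻¹ := by
    rw [hzt]
    rfl
  rw [h4] at h3
  have h5 : 1 < 5 ^ n := Nat.one_lt_pow (by omega) (by norm_num)
  rcases pm_of_add_inv (pow_ne_zero _ hz) hz h3 with h6 | h6
  · apply hroot (5 ^ n - 1) (by omega)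
    have h7 : z ^ (5 ^ n - 1) * z = 1 * z := by
      rw [← pow_succ, one_mul]
      have : 5 ^ n - 1 + 1 = 5 ^ n := by omega
      rw [this, h6]
    exact mul_right_cancel₀ hz h7
  · apply hroot (5 ^ n + 1) (by omega)
    rw [pow_succ, h6, inv_mul_cancel₀ hz]

lemma nonzero2 {ζ : K} (hζ : IsPrimitiveRoot ζ N) (h5 : 5 ∣ N) (ι : K →ₐ[ℚ] ℂ) {t : K}
    (σ : K ≃ₐ[ℚ] K) {z z' : ℂ} (hz : z ≠ 0) (hz' : z' ≠ 0)
    (hzt : z + z⁻¹ = ι t) (hzt' : z' + z'⁻¹ = ι (σ t)) (hσ : σ t ≠ t)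
    (hout : z ∉ Set.range ι) : D5 t - D5 (σ t) ≠ 0 := by
  intro h0
  have h1 : D5 t = D5 (σ t) := sub_eq_zero.mp h0
  have hDhom : ∀ x : K, ι (D5 x) = D5 (ι x) := fun x => D5_hom ι.toRingHom x
  have h2 : D5 (z + z⁻¹) = D5 (z' + z'⁻¹) := by rw [hzt, hzt', ← hDhom, ← hDhom, h1]
  rw [D5_add_inv hz, D5_add_inv hz', inv_pow, inv_pow] at h2
  obtain ⟨w, hw0, hw, hw5⟩ : ∃ w : ℂ, w ≠ 0 ∧ w + w⁻¹ = ι (σ t) ∧ w ^ 5 = z ^ 5 := by
    rcases pm_of_add_inv (pow_ne_zero 5 hz) (pow_ne_zero 5 hz') h2 with h3 | h3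
    · exact ⟨z', hz', hzt', h3.symm⟩
    · refine ⟨z'⁻¹, inv_ne_zero hz', ?_, ?_⟩
      · rw [inv_inv, add_comm]
        exact hzt'
      · rw [inv_pow]
        exact h3.symm
  set η := w / z with hη
  have hwη : w = η * z := by rw [hη]; field_simp
  have hη5 : η ^ 5 = 1 := by
    rw [hη, div_pow, hw5, div_self (pow_ne_zero 5 hz)]
  have hη1 : η ≠ 1 := by
    intro h
    rw [h, one_mul] at hwη
    apply hσ
    apply ι.toRingHom.injective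
    change ι (σ t) = ι t
    rw [← hw, ← hzt, hwη]
  have hη0 : η ≠ 0 := div_ne_zero hw0 hz
  obtain ⟨m, hm⟩ := h5
  have hprim : IsPrimitiveRoot (ζ ^ m) 5 := hζ.pow (NeZero.pos N) (by rw [hm]; ring)
  have hprimC : IsPrimitiveRoot (ι (ζ ^ m)) 5 :=
    hprim.map_of_injective (f := ι) ι.toRingHom.injective
  obtain ⟨i, -, hi⟩ := hprimC.eq_pow_of_pow_eq_one hη5
  set e : K := (ζ ^ m) ^ i with he
  have hιe : ι e = η := by rw [he, map_pow, hi]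
  have hη2 : η - η⁻¹ ≠ 0 := by
    intro h
    have h3 : η ^ 2 = 1 := by
      have : (η - η⁻¹) * η = 0 := by rw [h, zero_mul]
      rw [sub_mul, inv_mul_cancel₀ hη0] at this
      linear_combination this
    apply hη1
    calc η = η ^ 5 / (η ^ 2) ^ 2 := by field_simp
      _ = 1 := by rw [hη5, h3]; norm_num
  apply hout
  refine ⟨(σ t - e⁻¹ * t) / (e - e⁻¹), ?_⟩
  rw [map_div₀, map_sub, map_sub, map_mul, map_inv₀, hιe, ← hw, ← hzt, hwη]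
  rw [div_eq_iff hη2]
  field_simp
  ring

/-- The choice of the automorphism and of the algebraic integer divisible by five. -/
lemma exists_gamma2 {ζ : K} (hζ : IsPrimitiveRoot ζ N) {t : K} (ht : IsIntegral ℤ t)
    (hmin : 5 ∣ N → t ∉ IntermediateField.adjoin ℚ {ζ ^ 5}) :
    ∃ (σ : K ≃ₐ[ℚ] K) (δ : K), IsIntegral ℤ δ ∧
      ((D5 t - σ t = 5 * δ) ∨ (5 ∣ N ∧ σ t ≠ t ∧ D5 t - D5 (σ t) = 5 * δ)) := by
  have hg : IsGalois ℚ K := IsCyclotomicExtension.isGalois {N} ℚ K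
  obtain ⟨f, hf⟩ := exists_poly hζ ht
  obtain ⟨g, hg5⟩ := pow_five_aeval ζ f
  rw [← hf] at hg5
  have ht3 : ∀ x : K, IsIntegral ℤ x → IsIntegral ℤ (x ^ 3 - x) := fun x hx => (hx.pow 3).sub hx
  by_cases h5 : 5 ∣ N
  · have h1 := hmin h5
    obtain ⟨σ, hσ1, hσ2⟩ : ∃ σ : K ≃ₐ[ℚ] K, σ (ζ ^ 5) = ζ ^ 5 ∧ σ t ≠ t := by
      by_contra hcon
      push Not at hcon
      apply h1
      rw [← IsGalois.fixedField_fixingSubgroup (IntermediateField.adjoin ℚ {ζ ^ 5}),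
        IntermediateField.mem_fixedField_iff]
      intro s hs
      refine hcon s ?_
      rw [IntermediateField.mem_fixingSubgroup_iff] at hs
      exact hs _ (IntermediateField.mem_adjoin_simple_self ℚ _)
    refine ⟨σ, aeval ζ g - σ (aeval ζ g) - (t ^ 3 - t) + ((σ t) ^ 3 - σ t), ?_, Or.inr ⟨h5, hσ2, ?_⟩⟩
    · have hσt : IsIntegral ℤ (σ t) := ht.map (σ.toAlgHom.restrictScalars ℤ)
      have hσg : IsIntegral ℤ (σ (aeval ζ g)) :=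
        (isIntegral_aeval hζ g).map (σ.toAlgHom.restrictScalars ℤ)
      exact (((isIntegral_aeval hζ g).sub hσg).sub (ht3 t ht)).add (ht3 _ hσt)
    · have h2 : (σ t) ^ 5 = aeval (ζ ^ 5) f + 5 * σ (aeval ζ g) := by
        rw [← map_pow, hg5, map_add, map_mul, ← aeval_alg, hσ1, map_ofNat]
      unfold D5
      linear_combination hg5 - h2
  · obtain ⟨σ, hσ⟩ := exists_frob hζ h5
    refine ⟨σ, aeval ζ g - (t ^ 3 - t), (isIntegral_aeval hζ g).sub (ht3 t ht), Or.inl ?_⟩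
    have h2 : σ t = aeval (ζ ^ 5) f := by
      rw [← hσ, aeval_alg, ← hf]
    unfold D5
    rw [h2]
    linear_combination hg5

theorem core2 {ζ : K} (hζ : IsPrimitiveRoot ζ N) (ι : K →ₐ[ℚ] ℂ) {t : K} (ht : IsIntegral ℤ t)
    (hmin : 5 ∣ N → t ∉ IntermediateField.adjoin ℚ {ζ ^ 5}) (Z : K → ℂ)
    (hZ : ∀ s : K ≃ₐ[ℚ] K, 1 ≤ ‖Z (s t)‖ ∧ Z (s t) + (Z (s t))⁻¹ = ι (s t))
    (hout : Z t ∉ Set.range ι) (hroot : ∀ n : ℕ, 0 < n → (Z t) ^ n ≠ 1) {M : ℝ}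
    (hM : ∀ S : Finset K, (∀ y ∈ S, ∃ s : K ≃ₐ[ℚ] K, y = s t) → ∏ y ∈ S, ‖Z y‖ ≤ M) :
    (5 : ℝ) ^ (minpoly ℚ t).natDegree ≤ 4 ^ (minpoly ℚ t).natDegree * Wt M ^ 2 := by
  classical
  have hg : IsGalois ℚ K := IsCyclotomicExtension.isGalois {N} ℚ K
  obtain ⟨σ, δ, hδ, hcase⟩ := exists_gamma2 hζ ht hmin
  have hZ0 : ∀ s : K ≃ₐ[ℚ] K, Z (s t) ≠ 0 := by
    intro s h
    have := (hZ s).1
    rw [h, norm_zero] at this
    linarith
  have hDhom : ∀ x : K, ι (D5 x) = D5 (ι x) := fun x => D5_hom ι.toRingHom x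
  have hDs : ∀ (s : K ≃ₐ[ℚ] K) (x : K), s (D5 x) = D5 (s x) :=
    fun s x => D5_hom (s : K →+* K) x
  have hD : ∀ s : K ≃ₐ[ℚ] K, ‖D5 (ι (s t))‖ ≤ ‖Z (s t)‖ ^ 5 + (‖Z (s t)‖⁻¹) ^ 5 := by
    intro s
    rw [← (hZ s).2]
    exact norm_D5 (hZ0 s)
  have hL : ∀ s : K ≃ₐ[ℚ] K, ‖ι (s t)‖ ≤ ‖Z (s t)‖ ^ 5 + (‖Z (s t)‖⁻¹) ^ 5 := by
    intro s
    rw [← (hZ s).2]
    exact norm_lin (hZ s).1
  have hmul : ∀ s : K ≃ₐ[ℚ] K, (s * σ) t = s (σ t) := fun s => rfl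
  have hr : ∀ s : K ≃ₐ[ℚ] K, 1 ≤ ‖Z (s t)‖ := fun s => (hZ s).1
  have hZ1 : Z t + (Z t)⁻¹ = ι t := (hZ 1).2
  have hfin : ∀ {γ : K}, γ = 5 * δ → γ ≠ 0 → (∀ s : K ≃ₐ[ℚ] K, ‖ι (s γ)‖ ≤
      4 * (Wt ‖Z (s t)‖ * Wt ‖Z (s (σ t))‖)) →
      (5 : ℝ) ^ (minpoly ℚ t).natDegree ≤ 4 ^ (minpoly ℚ t).natDegree * Wt M ^ 2 := by
    intro γ hγ hγ0 hb
    have h1 := main_ineq2 ι hγ hδ hγ0 t σ (fun y => ‖Z y‖) hr hb
    refine h1.trans ?_
    have hall : ∀ y ∈ Finset.univ.image (fun s : K ≃ₐ[ℚ] K => s t), 1 ≤ ‖Z y‖ := by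
      intro y hy
      obtain ⟨s, -, rfl⟩ := Finset.mem_image.mp hy
      exact hr s
    have h2 := (Wt_prod _ (fun y => ‖Z y‖) hall).1
    have h3 := hM (Finset.univ.image (fun s : K ≃ₐ[ℚ] K => s t)) (by
      intro y hy
      obtain ⟨s, -, rfl⟩ := Finset.mem_image.mp hy
      exact ⟨s, rfl⟩)
    have h4 := Wt_mono h2 h3
    have h5 := one_le_Wt h2
    exact mul_le_mul_of_nonneg_left (pow_le_pow_left₀ (by linarith) h4 2) (by positivity)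
  rcases hcase with h | ⟨h5, hσ, h⟩
  · refine hfin h (nonzero1 ι σ (hZ0 1) hZ1 hroot) ?_
    intro s
    have h1 : ‖ι (s (D5 t - σ t))‖ ≤ ‖D5 (ι (s t))‖ + ‖ι (s (σ t))‖ := by
      rw [map_sub, map_sub, hDs, hDhom]
      exact norm_sub_le _ _
    have h2 := hL (s * σ)
    rw [hmul] at h2
    have h3 := hr (s * σ)
    rw [hmul] at h3
    exact h1.trans (Wt_bound (hr s) h3 (hD s) h2)
  · refine hfin h (nonzero2 hζ h5 ι σ (hZ0 1) (hZ0 σ) hZ1 (hZ σ).2 hσ hout) ?_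
    intro s
    have h1 : ‖ι (s (D5 t - D5 (σ t)))‖ ≤ ‖D5 (ι (s t))‖ + ‖D5 (ι (s (σ t)))‖ := by
      rw [map_sub, map_sub, hDs, hDs, hDhom, hDhom]
      exact norm_sub_le _ _
    have h2 := hD (s * σ)
    rw [hmul] at h2
    have h3 := hr (s * σ)
    rw [hmul] at h3
    exact h1.trans (Wt_bound (hr s) h3 (hD s) h2)

end Pool.Agent.W628.AbSalem
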